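import Pool.Agent.Helper30.PB.St

/-!
# Project PB, module FMP: the first moment
-/

set_option autoImplicit false

noncomputable section

namespace Pool.Agent.Helper94.PB

open Finset ArithmeticFunction
open Pool.Agent.Helper30.PB
open Pool.Agent.Helper93.KN (ff StSieve StAvg)
open Pool.Agent.Helper48.BK (StSW th)

/-- The numbers `n` and the primes `P = 2 n + h`. -/
private lemma card_le (Q a h N : ℕ) :
    ((Ioc h (2 * N + h)).filter (fun P => P.Prime ∧ P % (2 * Q) = (2 * a + h) % (2 * Q))).card ≤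
      ((Icc 1 N).filter (fun n => n % Q = a % Q ∧ (2 * n + h).Prime)).card := by
  have key : ∀ P ∈ (Ioc h (2 * N + h)).filter
      (fun P => P.Prime ∧ P % (2 * Q) = (2 * a + h) % (2 * Q)), 2 * ((P - h) / 2) + h = P := by
    intro P hP
    rw [mem_filter, mem_Ioc] at hP
    obtain ⟨⟨h1, -⟩, -, h3⟩ := hP
    have h4 : P % 2 = (2 * a + h) % 2 := by
      have := congrArg (· % 2) h3
      simpa [Nat.mod_mul_right_mod] using this
    omega
  refine card_le_card_of_injOn (fun P => (P - h) / 2) ?_ ?_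
  · intro P hP
    have e := key P hP
    rw [mem_coe, mem_filter, mem_Ioc] at hP
    obtain ⟨⟨h1, h2⟩, h3, h4⟩ := hP
    simp only [coe_filter, Set.mem_ofPred_eq, mem_Icc]
    refine ⟨⟨by omega, by omega⟩, ?_, ?_⟩
    · have h5 : (2 * ((P - h) / 2) + h) ≡ 2 * a + h [MOD 2 * Q] := by
        rw [e]; exact h4
      have h6 : 2 * ((P - h) / 2) ≡ 2 * a [MOD 2 * Q] := Nat.ModEq.add_right_cancel' h h5
      exact Nat.ModEq.mul_left_cancel' (by norm_num) h6
    · rw [e]; exact h3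
  · intro P hP P' hP' he
    have e := key P hP
    have e' := key P' hP'
    simp only at he
    rw [← e, ← e', he]

theorem hFMP (hP : StPIP) : StFMP := by
  intro Q a b hQ _ hab
  obtain ⟨Y₁, h1⟩ := hP (2 * Q) (by omega)
  obtain ⟨Y₂, h2⟩ := hP Q hQ
  have hQ0 : (0 : ℝ) < Q := by exact_mod_cast hQ
  refine ⟨1 / (512 * (Q : ℝ) ^ 2), by positivity, Y₂, max Y₁ 3, ?_⟩
  intro N K hN hK hKN
  have hN1 : Y₁ ≤ N := le_trans (le_max_left _ _) hN
  have hN3 : 3 ≤ N := le_trans (le_max_right _ _) hN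
  have hN3' : (3 : ℝ) ≤ N := by exact_mod_cast hN3
  have hlN : 0 < Real.log N := Real.log_pos (by linarith)
  have hlK : 0 ≤ Real.log K := Real.log_natCast_nonneg K
  -- every term
  have hterm : ∀ p ∈ pc K Q b, (N : ℝ) / (32 * Q * Real.log N) ≤
      (((Icc 1 N).filter (fun n => n % Q = a % Q ∧ (2 * n + (p ^ 2 + p + 1)).Prime)).card : ℝ) := by
    intro p hp
    unfold pc at hp
    rw [mem_filter, mem_Icc] at hp
    obtain ⟨⟨hp1, hpK⟩, hpp, hpb⟩ := hp
    have hh : p ^ 2 + p + 1 ≤ N := by nlinarith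
    have h3 := h1 (p ^ 2 + p + 1) (2 * N + (p ^ 2 + p + 1)) (2 * a + (p ^ 2 + p + 1))
      (by omega) (by omega) (hab p hpb)
    have h4 := card_le Q a (p ^ 2 + p + 1) N
    have h5 : (((Ioc (p ^ 2 + p + 1) (2 * N + (p ^ 2 + p + 1))).filter
        (fun P => P.Prime ∧ P % (2 * Q) = (2 * a + (p ^ 2 + p + 1)) % (2 * Q))).card : ℝ) ≤
        (((Icc 1 N).filter (fun n => n % Q = a % Q ∧ (2 * n + (p ^ 2 + p + 1)).Prime)).card : ℝ) := by
      exact_mod_cast h4
    refine le_trans ?_ (le_trans h3 h5)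
    have hY1 : (2 * N : ℝ) ≤ ((2 * N + (p ^ 2 + p + 1) : ℕ) : ℝ) := by
      exact_mod_cast Nat.le_add_right _ _
    have hY2 : ((2 * N + (p ^ 2 + p + 1) : ℕ) : ℝ) ≤ (N : ℝ) ^ 2 := by
      have : 2 * N + (p ^ 2 + p + 1) ≤ N ^ 2 := by nlinarith
      exact_mod_cast this
    set Y : ℝ := ((2 * N + (p ^ 2 + p + 1) : ℕ) : ℝ) with hY
    have hYpos : 0 < Y := by linarith
    have hlY : 0 < Real.log Y := Real.log_pos (by linarith)
    have hlY2 : Real.log Y ≤ 2 * Real.log N := by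
      have := Real.log_le_log hYpos hY2
      rwa [Real.log_pow, Nat.cast_ofNat] at this
    rw [div_le_div_iff₀ (by positivity) (by push_cast; positivity)]
    push_cast
    have e1 : (N : ℝ) * (16 * (2 * Q) * Real.log Y) ≤ (N : ℝ) * (16 * (2 * Q) * (2 * Real.log N)) := by
      gcongr
    have e2 : (N : ℝ) * (16 * (2 * Q) * (2 * Real.log N)) = (2 * N : ℝ) * (32 * Q * Real.log N) := by
      ring
    have e3 : (2 * N : ℝ) * (32 * Q * Real.log N) ≤ Y * (32 * Q * Real.log N) := by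
      gcongr
    linarith
  have hcard : (K : ℝ) / (16 * Q * Real.log K) ≤ ((pc K Q b).card : ℝ) := by
    have h3 := h2 0 K b hK (by omega) (by assumption)
    exact h3
  calc 1 / (512 * (Q : ℝ) ^ 2) * (N * K / (Real.log K * Real.log N))
      = (K : ℝ) / (16 * Q * Real.log K) * ((N : ℝ) / (32 * Q * Real.log N)) := by
        rw [div_mul_div_comm, div_mul_div_comm]
        congr 1 <;> ring
    _ ≤ ((pc K Q b).card : ℝ) * ((N : ℝ) / (32 * Q * Real.log N)) := by
        gcongr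
    _ = ∑ _p ∈ pc K Q b, (N : ℝ) / (32 * Q * Real.log N) := by
        rw [sum_const, nsmul_eq_mul]
    _ ≤ _ := sum_le_sum hterm

end Pool.Agent.Helper94.PB
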